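import Pool.Agent.P.MP_271f28_al.Gen

/-! Finitely generated groups all of whose finite Green index extensions are hopfian. -/

set_option autoImplicit false

namespace Pool.Agent.P.MP_271f28_al.Crit

open Pool.Agent.P.MP_271f28_al.Gen

universe u

section Lattice

variable {T : Type u} [Group T]

/-- Subgroups of `K`, normalised by `K` and mapped into themselves by `β`. -/
structure Good (K : Subgroup T) (β : T →* T) (M : Subgroup T) : Prop where
  le : M ≤ K
  conj : ∀ k ∈ K, ∀ m ∈ M, k * m * k⁻¹ ∈ M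
  map : ∀ m ∈ M, β m ∈ M

variable {K : Subgroup T} {β : T →* T}

/-- The product of two good subgroups. -/
def prod {M D : Subgroup T} (hM : Good K β M) (hD : Good K β D) : Subgroup T where
  carrier := {y | ∃ m ∈ M, ∃ d ∈ D, y = m * d}
  one_mem' := ⟨1, M.one_mem, 1, D.one_mem, (mul_one 1).symm⟩
  mul_mem' := by
    rintro _ _ ⟨m, hm, d, hd, rfl⟩ ⟨m', hm', d', hd', rfl⟩
    exact ⟨_, M.mul_mem hm (hM.conj d (hD.le hd) m' hm'), _, D.mul_mem hd hd', by group⟩
  inv_mem' := by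
    rintro _ ⟨m, hm, d, hd, rfl⟩
    exact ⟨_, hM.conj d⁻¹ (K.inv_mem (hD.le hd)) m⁻¹ (M.inv_mem hm), _, D.inv_mem hd, by group⟩

theorem good_prod {M D : Subgroup T} (hM : Good K β M) (hD : Good K β D) :
    Good K β (prod hM hD) where
  le := by
    rintro _ ⟨m, hm, d, hd, rfl⟩
    exact K.mul_mem (hM.le hm) (hD.le hd)
  conj := by
    rintro k hk _ ⟨m, hm, d, hd, rfl⟩
    exact ⟨_, hM.conj k hk m hm, _, hD.conj k hk d hd, by group⟩
  map := by
    rintro _ ⟨m, hm, d, hd, rfl⟩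
    exact ⟨_, hM.map m hm, _, hD.map d hd, map_mul _ _ _⟩

theorem good_conj [hK : K.Normal] (hβ : ∀ t, β t * t⁻¹ ∈ K) {M : Subgroup T} (hM : Good K β M)
    (t : T) : Good K β (M.comap (MulAut.conj t).toMonoidHom) where
  le := fun y hy => by
    have := hK.conj_mem _ (hM.le hy) t⁻¹
    simpa [mul_assoc] using this
  conj := fun k hk y hy => by
    have := hM.conj _ (hK.conj_mem k hk t) _ hy
    simpa [mul_assoc] using this
  map := fun y hy => by
    have := hM.conj _ (K.inv_mem (hβ t)) _ (hM.map _ hy)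
    simpa [mul_assoc] using this

/-- A maximal good subgroup avoiding `x`. -/
theorem exists_max {N : Subgroup T} (hN : Good K β N) {x : T} (hx : x ∉ N) :
    ∃ M, Good K β M ∧ N ≤ M ∧ x ∉ M ∧ ∀ M', Good K β M' → M ≤ M' → x ∉ M' → M' ≤ M := by
  obtain ⟨M, h1, h2⟩ := zorn_le_nonempty₀ {M : Subgroup T | Good K β M ∧ x ∉ M}
    (fun c hc hch y hy => by
      have hm : ∀ {z}, z ∈ sSup c ↔ ∃ s ∈ c, z ∈ s :=
        Subgroup.mem_sSup_of_directedOn ⟨y, hy⟩ hch.directedOn
      refine ⟨sSup c, ⟨⟨fun z hz => ?_, fun k hk z hz => ?_, fun z hz => ?_⟩, fun hz => ?_⟩,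
        fun z hz => le_sSup hz⟩ <;> obtain ⟨s, hs, hz⟩ := hm.1 hz
      · exact (hc hs).1.le hz
      · exact hm.2 ⟨s, hs, (hc hs).1.conj k hk z hz⟩
      · exact hm.2 ⟨s, hs, (hc hs).1.map z hz⟩
      · exact (hc hs).2 hz) N ⟨hN, hx⟩
  exact ⟨M, h2.prop.1, h1, h2.prop.2, fun M' h h' h'' => h2.le_of_ge ⟨h, h''⟩ h'⟩

/-- The normal core of a maximal good subgroup is not rigid. -/
theorem core_not_rigid [hK : K.Normal] [K.FiniteIndex] (hβ : ∀ t, β t * t⁻¹ ∈ K) {M : Subgroup T}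
    (hM : Good K β M) {x : T} (hxK : x ∈ K) (hx : x ∉ M) (hβx : β x ∈ M)
    (hmax : ∀ M', Good K β M' → M ≤ M' → x ∉ M' → M' ≤ M) :
    ∃ y, y ∉ M.normalCore ∧ β y ∈ M.normalCore := by
  classical
  have key : ∀ J : Finset T, ∃ D, Good K β D ∧ (∀ y, y ∈ D ↔ y ∈ K ∧ ∀ t ∈ J, t * y * t⁻¹ ∈ M) ∧
      (J.Nonempty → ∃ y, y ∉ D ∧ β y ∈ D) := by
    intro J
    induction J using Finset.induction_on with
    | empty =>
      refine ⟨K, ⟨le_rfl, fun k hk m hm => K.mul_mem (K.mul_mem hk hm) (K.inv_mem hk),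
        fun m hm => ?_⟩, by simp, by simp⟩
      simpa using K.mul_mem (hβ m) hm
    | insert t J _ ih =>
      obtain ⟨D, hD, hmem, hne⟩ := ih
      have hMt := good_conj hβ hM t
      refine ⟨D ⊓ M.comap (MulAut.conj t).toMonoidHom, ⟨inf_le_left.trans hD.le,
        fun k hk m hm => ⟨hD.conj k hk m hm.1, hMt.conj k hk m hm.2⟩,
        fun m hm => ⟨hD.map m hm.1, hMt.map m hm.2⟩⟩, fun y => ?_, fun _ => ?_⟩
      · simp only [Subgroup.mem_inf, hmem, Finset.forall_mem_insert, Subgroup.mem_comap]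
        change _ ∧ t * y * t⁻¹ ∈ M ↔ _
        tauto
      have hDt := good_conj hβ hD t⁻¹
      by_cases h : x ∈ prod hM hDt
      · obtain ⟨m, hm, d, hd, e⟩ := h
        refine ⟨t⁻¹ * d * t, fun h' => hx ?_, ?_, ?_⟩
        · have h2 : d ∈ M := by simpa [mul_assoc] using h'.2
          exact e ▸ M.mul_mem hm h2
        · exact hD.map _ (by simpa using hd)
        · have h2 : β d ∈ M := by
            have h3 := M.mul_mem (M.inv_mem (hM.map m hm)) hβx
            rwa [e, map_mul, inv_mul_cancel_left] at h3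
          have h4 := hM.conj _ (K.inv_mem (hβ t)) _ h2
          simpa [mul_assoc] using h4
      · have h1 : prod hM hDt ≤ M :=
          hmax _ (good_prod hM hDt) (fun m hm => ⟨m, hm, 1, Subgroup.one_mem _, (mul_one m).symm⟩) h
        have h2 : D ≤ M.comap (MulAut.conj t).toMonoidHom := fun d hd =>
          h1 ⟨1, M.one_mem, t * d * t⁻¹, by simpa [mul_assoc] using hd, (one_mul _).symm⟩
        rw [inf_eq_left.2 h2]
        refine hne (Finset.nonempty_iff_ne_empty.2 fun hJ => h ?_)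
        refine ⟨1, M.one_mem, x, ?_, (one_mul x).symm⟩
        refine (hmem _).2 ⟨?_, by simp [hJ]⟩
        simpa using hK.conj_mem x hxK t⁻¹
  have := Fintype.ofFinite (T ⧸ K)
  obtain ⟨D, -, hmem, hne⟩ := key (Finset.univ.image fun q : T ⧸ K => q.out)
  have hD : ∀ y, y ∈ D ↔ y ∈ M.normalCore := fun y => by
    rw [hmem]
    refine ⟨fun h t => ?_, fun h => ⟨hM.le (M.normalCore_le h), fun t _ => h t⟩⟩
    have h1 : t * ((t : T ⧸ K).out)⁻¹ ∈ K := by
      have h2 := QuotientGroup.eq.1 (QuotientGroup.out_eq' (t : T ⧸ K))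
      simpa [mul_assoc] using hK.conj_mem _ h2 (t : T ⧸ K).out
    have h3 := hM.conj _ h1 _ (h.2 _ (Finset.mem_image_of_mem _ (Finset.mem_univ (t : T ⧸ K))))
    simpa [mul_assoc] using h3
  obtain ⟨y, h1, h2⟩ := hne ⟨_, Finset.mem_image_of_mem _ (Finset.mem_univ (1 : T ⧸ K))⟩
  exact ⟨y, fun h => h1 ((hD y).2 h), (hD _).1 h2⟩

/-- Rigidity passes from normal subgroups to subgroups with a normaliser of finite index. -/
theorem rigid_of_normal [hT : Group.FG T]
    (h : ∀ φ : T →* T, Function.Surjective φ → ∀ N : Subgroup T, N.Normal → N.map φ ≤ N →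
      N.comap φ ≤ N)
    (N K : Subgroup T) [hK : K.Normal] [K.FiniteIndex] (hN : ∀ k ∈ K, ∀ n ∈ N, k * n * k⁻¹ ∈ N)
    (α : T →* T) (hα : Function.Surjective α) (hαN : ∀ n ∈ N, α n ∈ N) (z : T) (hz : α z ∈ N) :
    z ∈ N := by
  obtain ⟨X, hX, hXf⟩ := (Group.fg_iff).1 hT
  let a : Monoid.End T := α
  obtain ⟨m, hm, e⟩ := periodic α hα (QuotientGroup.mk' K) (Set.toFinite _) X hXf fun k l hkl =>
    congrArg (fun g : T →* T ⧸ K => (g : T → T ⧸ K)) (MonoidHom.eq_of_eqOn_dense hX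
      (f := (QuotientGroup.mk' K).comp (a ^ k)) (g := (QuotientGroup.mk' K).comp (a ^ l)) hkl)
  let β : T →* T := a ^ m
  have hβa : ∀ t, β t = α^[m] t := fun _ => rfl
  have hβ' : ∀ t, t⁻¹ * β t ∈ K := fun t => QuotientGroup.eq.1 (congrFun e t).symm
  have hβ : ∀ t, β t * t⁻¹ ∈ K := fun t => by simpa [mul_assoc] using hK.conj_mem _ (hβ' t) t
  have hit : ∀ (i : ℕ) n, n ∈ N → α^[i] n ∈ N := fun i n hn =>
    (Set.MapsTo.iterate (s := (N : Set T)) hαN i) hn
  have hβN : ∀ n ∈ N, β n ∈ N := fun n hn => hit m n hn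
  have hβK : ∀ k ∈ K, β k ∈ K := fun k hk => by simpa using K.mul_mem (hβ k) hk
  have hβz : β z ∈ N := by
    obtain ⟨i, rfl⟩ := Nat.exists_eq_succ_of_ne_zero hm.ne'
    rw [hβa, Function.iterate_succ_apply]
    exact hit i _ hz
  by_contra hzN
  have hG : Good K β (N ⊓ K) := ⟨inf_le_right,
    fun k hk n hn => ⟨hN k hk n hn.1, K.mul_mem (K.mul_mem hk hn.2) (K.inv_mem hk)⟩,
    fun n hn => ⟨hβN n hn.1, hβK n hn.2⟩⟩
  have hx : z⁻¹ * β z ∉ N ⊓ K := fun h' => hzN (by
    simpa using N.mul_mem hβz (N.inv_mem h'.1))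
  obtain ⟨M, hM, hNM, hxM, hmax⟩ := exists_max hG hx
  obtain ⟨y, h1, h2⟩ := core_not_rigid hβ hM (hβ' z) hxM (hNM ⟨by
    rw [map_mul, map_inv]
    exact N.mul_mem (N.inv_mem hβz) (hβN _ hβz), hβK _ (hβ' z)⟩) hmax
  refine h1 (h β (hα.iterate m) M.normalCore inferInstance ?_ h2)
  rintro _ ⟨w, hw, rfl⟩ t
  exact (good_conj hβ hM t).map w (hw t)

end Lattice

section Up

variable {T S : Type u} [Group T] [Semigroup S] (ι : T →ₙ* S)

/-- The stabiliser of a point fixed by the identity. -/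
def fixer (x : S) (hx : x * ι 1 = x) : Subgroup T where
  carrier := {t | x * ι t = x}
  one_mem' := hx
  mul_mem' := fun {a b} ha hb => by
    change x * ι (a * b) = x
    rw [map_mul, ← mul_assoc, ha, hb]
  inv_mem' := fun {a} ha => by
    change x * ι a⁻¹ = x
    have h : x * ι a = x := ha
    conv_lhs => rw [← h]
    rw [mul_assoc, ← map_mul, mul_inv_cancel, hx]

theorem conj_mem {x : S} (hx : x * ι 1 = x) {s t : T}
    (h : x * ι t ∈ LS ι.srange (x * ι s)) {n : T} (hn : n ∈ fixer ι x hx) :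
    t * s⁻¹ * n * (t * s⁻¹)⁻¹ ∈ fixer ι x hx := by
  have h0 : x * ι n = x := hn
  have h1 : x * ι s * ι (s⁻¹ * n * s) = x * ι s := by
    rw [mul_assoc, ← map_mul, show s * (s⁻¹ * n * s) = n * s by group, map_mul, ← mul_assoc, h0]
  have h2 : x * ι t * ι (s⁻¹ * n * s) = x * ι t := by
    rcases h with h | ⟨a, -, h⟩
    · rw [h, h1]
    · beta_reduce at h
      rw [← h, mul_assoc, h1]
  change x * ι _ = x
  rw [show t * s⁻¹ * n * (t * s⁻¹)⁻¹ = t * (s⁻¹ * n * s) * t⁻¹ by group, map_mul, map_mul,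
    ← mul_assoc, ← mul_assoc, h2, mul_assoc, ← map_mul, mul_inv_cancel, hx]

theorem finiteIndex (hfin : (Cls ι.srange).Finite) {x : S} (hxT : x ∉ ι.srange)
    (hx : x * ι 1 = x) : (Subgroup.normalizer (fixer ι x hx : Set T)).FiniteIndex := by
  have := hfin.to_subtype
  have hn : ∀ t, x * ι t ∉ ι.srange := fun t ⟨a, ha⟩ => hxT ⟨a * t⁻¹, by
    rw [map_mul, ha, mul_assoc, ← map_mul, mul_inv_cancel, hx]⟩
  have : Finite (T ⧸ Subgroup.normalizer (fixer ι x hx : Set T)) := by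
    refine Finite.of_injective (β := Cls ι.srange)
      (fun q => ⟨HC ι.srange (x * ι q.out⁻¹), _, hn _, rfl⟩) fun q q' e => ?_
    have e1 : HC ι.srange (x * ι q.out⁻¹) = HC ι.srange (x * ι q'.out⁻¹) := congrArg Subtype.val e
    have e2 := (e1 ▸ self_mem_HC ι.srange (x * ι q.out⁻¹)).2
    rw [← q.out_eq', ← q'.out_eq', QuotientGroup.eq, Subgroup.mem_normalizer_iff]
    refine fun n => ⟨fun h => ?_, fun h => ?_⟩
    · simpa using conj_mem ι hx (s := q'.out⁻¹) (t := q.out⁻¹) (e2 ▸ Set.mem_insert _ _) h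
    · simpa [mul_assoc] using
        conj_mem ι hx (s := q.out⁻¹) (t := q'.out⁻¹) (e2 ▸ Set.mem_insert _ _) h
  exact Subgroup.finiteIndex_of_finite_quotient

theorem up [hT : Group.FG T]
    (h : ∀ φ : T →* T, Function.Surjective φ → ∀ N : Subgroup T, N.Normal → N.map φ ≤ N →
      N.comap φ ≤ N) (hι : Function.Injective ι) (hfin : (Cls ι.srange).Finite) : Hopfian S := by
  classical
  let e : T ≃* ι.srange := MulEquiv.ofBijective ι.srangeRestrict
    ⟨fun a b hab => hι (congrArg Subtype.val hab), ι.srangeRestrict_surjective⟩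
  have he : ∀ t, (e t : S) = ι t := fun _ => rfl
  let pull : (ι.srange →ₙ* ι.srange) → T →* T := fun f =>
    MonoidHom.mk' (fun t => e.symm (f (e t))) fun a b => by rw [map_mul, map_mul, map_mul]
  have hp : ∀ f t, pull f t = e.symm (f (e t)) := fun _ _ => rfl
  have hs : ∀ f : ι.srange →ₙ* ι.srange, Function.Surjective f → Function.Surjective (pull f) :=
    fun f hf => e.symm.surjective.comp (hf.comp e.surjective)
  refine main _ hfin (Or.inl ?_) (fun f hf a b hab => ?_) fun H hH => Or.inr (Or.inl ?_)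
  · obtain ⟨X, hX, hXf⟩ := Monoid.fg_iff.1 (Group.fg_iff_monoid_fg.1 hT)
    refine ⟨((hXf.insert 1).image ι).toFinset, le_antisymm ?_ ?_⟩
    · rw [Subsemigroup.closure_le, Set.Finite.coe_toFinset]
      exact Set.image_subset_range _ _
    · rintro _ ⟨t, rfl⟩
      rw [Set.Finite.coe_toFinset]
      have ht : t ∈ Submonoid.closure X := hX ▸ Submonoid.mem_top t
      induction ht using Submonoid.closure_induction with
      | mem y hy => exact Subsemigroup.subset_closure ⟨y, Or.inr hy, rfl⟩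
      | one => exact Subsemigroup.subset_closure ⟨1, Or.inl rfl, rfl⟩
      | mul a b _ _ ha hb => rw [map_mul]; exact Subsemigroup.mul_mem _ ha hb
  · have h1 : Function.Injective (pull f) := (MonoidHom.ker_eq_bot_iff _).1
      (le_bot_iff.1 (h _ (hs f hf) ⊥ inferInstance (by simp)))
    apply e.symm.injective
    apply h1
    rw [hp, hp, e.apply_symm_apply, e.apply_symm_apply, hab]
  · obtain ⟨x, hxT, rfl⟩ := hH
    intro α hα y hy
    obtain ⟨t₀, rfl⟩ := e.surjective y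
    have h0 : x * ι t₀ = x := hy x (self_mem_HC _ x)
    have hx : x * ι 1 = x := by
      conv_lhs => rw [← h0]
      rw [mul_assoc, ← map_mul, mul_one, h0]
    have hm : ∀ t, t ∈ fixer ι x hx ↔ e t ∈ FixR ι.srange (HC ι.srange x) := fun t =>
      ⟨fun ht => mem_FixR_of _ (self_mem_HC _ x) _ ht, fun ht => ht x (self_mem_HC _ x)⟩
    have := finiteIndex ι hfin hxT hx
    refine ⟨α.symm (e t₀), ?_, α.apply_symm_apply _⟩
    rw [← e.apply_symm_apply (α.symm _), ← hm]
    refine rigid_of_normal h _ (Subgroup.normalizer (fixer ι x hx : Set T)).normalCore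
      (fun k hk n hn => (Subgroup.mem_normalizer_iff.1 (Subgroup.normalCore_le _ hk) n).1 hn)
      (pull α) (hs _ α.surjective) (fun n hn => ?_) _ ?_
    · rw [hm, hp, e.apply_symm_apply]
      exact hα ((hm n).1 hn)
    · rw [hm, hp, e.apply_symm_apply, e.apply_symm_apply]
      exact (α.apply_symm_apply (e t₀)).symm ▸ hy

end Up

section Down

variable {T Q : Type u} [Group T] [Group Q] (p : T →* Q)

/-- The union of a group and a quotient group. -/
def Ext (_p : T →* Q) : Type u := T ⊕ Q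

/-- The product in the union. -/
def mul : Ext p → Ext p → Ext p
  | .inl a, .inl b => .inl (a * b)
  | .inl a, .inr b => .inr (p a * b)
  | .inr a, .inl b => .inr (a * p b)
  | .inr a, .inr b => .inr (a * b)

/-- The union is a semigroup. -/
@[reducible] def sg : Semigroup (Ext p) where
  mul := mul p
  mul_assoc a b c := by
    change mul p (mul p a b) c = mul p a (mul p b c)
    rcases a with a | a <;> rcases b with b | b <;> rcases c with c | c <;>
      simp only [mul, map_mul, mul_assoc]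

theorem down (hp : Function.Surjective p)
    (h : ∀ (S : Type u) [Semigroup S] (ι : T →ₙ* S), Function.Injective ι →
      (Cls ι.srange).Finite → Hopfian S)
    (φ : T →* T) (ψ : Q →* Q) (hφ : Function.Surjective φ) (hc : ∀ t, ψ (p t) = p (φ t)) :
    Function.Injective ψ := by
  let := sg p
  let ι : T →ₙ* Ext p := ⟨Sum.inl, fun _ _ => rfl⟩
  let Φ : Ext p →ₙ* Ext p := ⟨Sum.map φ ψ, fun a b => by
    change Sum.map φ ψ (mul p a b) = mul p (Sum.map φ ψ a) (Sum.map φ ψ b)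
    rcases a with a | a <;> rcases b with b | b <;>
      simp only [mul, Sum.map_inl, Sum.map_inr, map_mul, hc]⟩
  have hψ : Function.Surjective ψ := fun q => by
    obtain ⟨t, rfl⟩ := (hp.comp hφ) q
    exact ⟨p t, hc t⟩
  have hR : ∀ q : Q, RS ι.srange (Sum.inr q) = Set.range Sum.inr := fun q => by
    ext y
    refine ⟨?_, ?_⟩
    · rintro (rfl | ⟨_, ⟨t, rfl⟩, rfl⟩)
      exacts [⟨q, rfl⟩, ⟨q * p t, rfl⟩]
    · rintro ⟨r, rfl⟩
      obtain ⟨t, ht⟩ := hp (q⁻¹ * r)
      refine Or.inr ⟨_, ⟨t, rfl⟩, ?_⟩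
      change (Sum.inr (q * p t) : T ⊕ Q) = _
      rw [ht, mul_inv_cancel_left]
  have hL : ∀ q : Q, LS ι.srange (Sum.inr q) = Set.range Sum.inr := fun q => by
    ext y
    refine ⟨?_, ?_⟩
    · rintro (rfl | ⟨_, ⟨t, rfl⟩, rfl⟩)
      exacts [⟨q, rfl⟩, ⟨p t * q, rfl⟩]
    · rintro ⟨r, rfl⟩
      obtain ⟨t, ht⟩ := hp (r * q⁻¹)
      refine Or.inr ⟨_, ⟨t, rfl⟩, ?_⟩
      change (Sum.inr (p t * q) : T ⊕ Q) = _
      rw [ht, inv_mul_cancel_right]
  have hfin : (Cls ι.srange).Finite := by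
    refine (Set.finite_singleton (HC ι.srange (Sum.inr 1))).subset ?_
    rintro _ ⟨x | q, hx, rfl⟩
    · exact absurd ⟨x, rfl⟩ hx
    · exact HC_eq_of_mem _ ⟨(hR _).trans (hR _).symm, (hL _).trans (hL _).symm⟩
  have key := h (Ext p) ι Sum.inl_injective hfin Φ (Sum.map_surjective.2 ⟨hφ, hψ⟩)
  exact (Sum.map_injective.1 key).2

end Down

theorem crit (T : Type u) [Group T] [Group.FG T] :
    (∀ (S : Type u) [Semigroup S] (ι : T →ₙ* S), Function.Injective ι →
      (Cls ι.srange).Finite → Hopfian S) ↔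
    ∀ φ : T →* T, Function.Surjective φ → ∀ N : Subgroup T, N.Normal → N.map φ ≤ N →
      N.comap φ ≤ N := by
  refine ⟨fun h φ hφ N hN hle t ht => ?_, fun h S _ ι hι hfin => up ι h hι hfin⟩
  have hle' : N ≤ N.comap φ := Subgroup.map_le_iff_le_comap.1 hle
  have key := down (QuotientGroup.mk' N) (QuotientGroup.mk'_surjective N) h φ
    (QuotientGroup.map N N φ hle') hφ fun _ => rfl
  refine (QuotientGroup.eq_one_iff t).1 (key ?_)
  rw [map_one]
  exact (QuotientGroup.eq_one_iff (φ t)).2 ht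

end Pool.Agent.P.MP_271f28_al.Crit
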