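import Mathlib

set_option autoImplicit false

namespace Pool.Agent.P.MP_271f28_al.Gen

universe u

variable {S : Type u} [Semigroup S]

/-- The set `x T¹`. -/
def RS (T : Subsemigroup S) (x : S) : Set S := insert x ((fun t => x * t) '' (T : Set S))

/-- The set `T¹ x`. -/
def LS (T : Subsemigroup S) (x : S) : Set S := insert x ((fun t => t * x) '' (T : Set S))

/-- The `T`-relative H-class of `x`. -/
def HC (T : Subsemigroup S) (x : S) : Set S := {y : S | RS T x = RS T y ∧ LS T x = LS T y}

/-- The set of the `T`-relative H-classes contained in `S - T`. -/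
def Cls (T : Subsemigroup S) : Set (Set S) := {H : Set S | ∃ x : S, x ∉ T ∧ H = HC T x}

/-- `T¹` inside `S¹`. -/
def T1 (T : Subsemigroup S) : Submonoid (WithOne S) where
  carrier := {a | a = 1 ∨ ∃ t ∈ T, a = (t : WithOne S)}
  one_mem' := Or.inl rfl
  mul_mem' := by
    rintro a b (rfl | ⟨s, hs, rfl⟩) (rfl | ⟨t, ht, rfl⟩)
    · exact Or.inl (one_mul _)
    · exact Or.inr ⟨t, ht, one_mul _⟩
    · exact Or.inr ⟨s, hs, mul_one _⟩
    · exact Or.inr ⟨s * t, T.mul_mem hs ht, by simp⟩

/-- The stabiliser `{a ∈ T¹ : H a = H}`. -/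
def Stab (T : Subsemigroup S) (H : Set S) : Submonoid (WithOne S) where
  carrier := {a | a ∈ T1 T ∧
    (fun h : S => (h : WithOne S) * a) '' H = (fun h : S => (h : WithOne S)) '' H}
  one_mem' := ⟨(T1 T).one_mem, by simp⟩
  mul_mem' := by
    rintro a b ⟨ha, ea⟩ ⟨hb, eb⟩
    refine ⟨(T1 T).mul_mem ha hb, ?_⟩
    have e1 : (fun h : S => (h : WithOne S) * (a * b)) '' H =
        (fun z : WithOne S => z * b) '' ((fun h : S => (h : WithOne S) * a) '' H) := by
      rw [Set.image_image]; simp only [mul_assoc]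
    rw [e1, ea, Set.image_image, eb]

/-- The congruence `σ` on the stabiliser: `a σ b` iff `h a = h b` for all `h ∈ H`. -/
def sigma (T : Subsemigroup S) (H : Set S) : Con (Stab T H) where
  r a b := ∀ h ∈ H, (h : WithOne S) * (a : WithOne S) = (h : WithOne S) * (b : WithOne S)
  iseqv := ⟨fun _ _ _ => rfl, fun e z hz => (e z hz).symm,
    fun e e' z hz => (e z hz).trans (e' z hz)⟩
  mul' := by
    intro a b c d hab hcd h hh
    have hb : (h : WithOne S) * (b : WithOne S) ∈ (fun h : S => (h : WithOne S)) '' H := by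
      rw [← b.2.2]; exact ⟨h, hh, rfl⟩
    obtain ⟨h', hh', e⟩ := hb
    simp only [Submonoid.coe_mul]
    rw [← mul_assoc, ← mul_assoc, hab h hh, ← e]
    exact hcd h' hh'

/-- The relative Schützenberger group `Stab / σ`. -/
abbrev Gam (T : Subsemigroup S) (H : Set S) : Type u := (sigma T H).Quotient

/-- The right fixer of `H` in `T`. -/
def FixR (T : Subsemigroup S) (H : Set S) : Set T := {t | ∀ h ∈ H, h * (t : S) = h}

/-- The left fixer of `H` in `T`. -/
def FixL (T : Subsemigroup S) (H : Set S) : Set T := {t | ∀ h ∈ H, (t : S) * h = h}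

/-- Every surjective endomorphism is injective. -/
def Hopfian (A : Type u) [Mul A] : Prop :=
  ∀ f : A →ₙ* A, Function.Surjective f → Function.Injective f

/-- Every automorphism of `A` that maps `N` into `N` maps it onto `N`. -/
def Rigid (A : Type u) [Mul A] (N : Set A) : Prop :=
  ∀ α : A ≃* A, Set.MapsTo α N N → Set.SurjOn α N N

end Pool.Agent.P.MP_271f28_al.Gen
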