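import Mathlib

set_option autoImplicit false

namespace Pool.Agent.P.MP_271f28_al

variable {S : Type} [Semigroup S]

/-- `x T¹`. -/
def RS (T : Subsemigroup S) (x : S) : Set S := insert x ((fun t => x * t) '' (T : Set S))
/-- `T¹ x`. -/
def LS (T : Subsemigroup S) (x : S) : Set S := insert x ((fun t => t * x) '' (T : Set S))
/-- the relative H-class of `x`. -/
def HC (T : Subsemigroup S) (x : S) : Set S := {y : S | RS T x = RS T y ∧ LS T x = LS T y}

/-- `T¹` inside `S¹`. -/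
def T1 (T : Subsemigroup S) : Submonoid (WithOne S) where
  carrier := {u | u = 1 ∨ ∃ t ∈ T, u = (t : WithOne S)}
  one_mem' := Or.inl rfl
  mul_mem' := by
    rintro a b (rfl | ⟨s, hs, rfl⟩) (rfl | ⟨t, ht, rfl⟩)
    · exact Or.inl (one_mul _)
    · exact Or.inr ⟨t, ht, one_mul _⟩
    · exact Or.inr ⟨s, hs, mul_one _⟩
    · exact Or.inr ⟨s * t, T.mul_mem hs ht, by simp⟩

variable (T : Subsemigroup S)

lemma mem_T1 {u : WithOne S} : u ∈ T1 T ↔ u = 1 ∨ ∃ t ∈ T, u = (t : WithOne S) := Iff.rfl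

lemma coe_mem_T1 {x : S} : (x : WithOne S) ∈ T1 T ↔ x ∈ T := by
  constructor
  · rintro (h | ⟨t, ht, h⟩)
    · exact absurd h WithOne.coe_ne_one
    · rw [WithOne.coe_inj] at h; rwa [h]
  · intro h; exact Or.inr ⟨x, h, rfl⟩

lemma mem_RS {x y : S} : y ∈ RS T x ↔ ∃ a ∈ T1 T, (y : WithOne S) = x * a := by
  constructor
  · rintro (rfl | ⟨t, ht, rfl⟩)
    · exact ⟨1, (T1 T).one_mem, by simp⟩
    · exact ⟨t, (coe_mem_T1 T).2 ht, by simp⟩
  · rintro ⟨a, rfl | ⟨t, ht, rfl⟩, h⟩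
    · left; simpa using h
    · right; refine ⟨t, ht, ?_⟩
      rw [← WithOne.coe_mul, WithOne.coe_inj] at h; exact h.symm

lemma mem_LS {x y : S} : y ∈ LS T x ↔ ∃ a ∈ T1 T, (y : WithOne S) = a * x := by
  constructor
  · rintro (rfl | ⟨t, ht, rfl⟩)
    · exact ⟨1, (T1 T).one_mem, by simp⟩
    · exact ⟨t, (coe_mem_T1 T).2 ht, by simp⟩
  · rintro ⟨a, rfl | ⟨t, ht, rfl⟩, h⟩
    · left; simpa using h
    · right; refine ⟨t, ht, ?_⟩
      rw [← WithOne.coe_mul, WithOne.coe_inj] at h; exact h.symm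

lemma RS_eq_iff {x y : S} : RS T x = RS T y ↔
    (∃ a ∈ T1 T, (y : WithOne S) = x * a) ∧ (∃ a ∈ T1 T, (x : WithOne S) = y * a) := by
  constructor
  · intro h
    refine ⟨(mem_RS T).1 ?_, (mem_RS T).1 ?_⟩
    · rw [h]; exact Set.mem_insert _ _
    · rw [← h]; exact Set.mem_insert _ _
  · rintro ⟨⟨a, ha, h1⟩, ⟨b, hb, h2⟩⟩
    ext z
    rw [mem_RS, mem_RS]
    constructor
    · rintro ⟨c, hc, h⟩
      exact ⟨b * c, (T1 T).mul_mem hb hc, by rw [h, h2, mul_assoc]⟩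
    · rintro ⟨c, hc, h⟩
      exact ⟨a * c, (T1 T).mul_mem ha hc, by rw [h, h1, mul_assoc]⟩

lemma LS_eq_iff {x y : S} : LS T x = LS T y ↔
    (∃ a ∈ T1 T, (y : WithOne S) = a * x) ∧ (∃ a ∈ T1 T, (x : WithOne S) = a * y) := by
  constructor
  · intro h
    refine ⟨(mem_LS T).1 ?_, (mem_LS T).1 ?_⟩
    · rw [h]; exact Set.mem_insert _ _
    · rw [← h]; exact Set.mem_insert _ _
  · rintro ⟨⟨a, ha, h1⟩, ⟨b, hb, h2⟩⟩
    ext z
    rw [mem_LS, mem_LS]
    constructor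
    · rintro ⟨c, hc, h⟩
      exact ⟨c * b, (T1 T).mul_mem hc hb, by rw [h, h2, mul_assoc]⟩
    · rintro ⟨c, hc, h⟩
      exact ⟨c * a, (T1 T).mul_mem hc ha, by rw [h, h1, mul_assoc]⟩

lemma self_mem_HC (x : S) : x ∈ HC T x := ⟨rfl, rfl⟩

lemma HC_eq_of_mem {x y : S} (h : y ∈ HC T x) : HC T y = HC T x := by
  ext z
  simp only [HC, Set.mem_ofPred_eq]
  rw [h.1, h.2]

lemma mem_HC_symm {x y : S} (h : y ∈ HC T x) : x ∈ HC T y := ⟨h.1.symm, h.2.symm⟩

lemma mem_HC_trans {x y z : S} (h : y ∈ HC T x) (h' : z ∈ HC T x) : z ∈ HC T y :=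
  ⟨h.1.symm.trans h'.1, h.2.symm.trans h'.2⟩

lemma not_mem_of_mem_HC {x y : S} (hx : x ∉ T) (h : y ∈ HC T x) : y ∉ T := by
  intro hy
  obtain ⟨a, ha, h2⟩ := ((RS_eq_iff T).1 h.1).2
  apply hx
  rw [← coe_mem_T1, h2]
  exact (T1 T).mul_mem ((coe_mem_T1 T).2 hy) ha

/-- Pigeonhole periodicity. -/
lemma periodic {α β : Type} (φ : α → α) (hφ : Function.Surjective φ) (κ : α → β)
    (hκ : (Set.range κ).Finite) (X : Set α) (hX : X.Finite)
    (hdet : ∀ k l : ℕ, Set.EqOn (κ ∘ φ^[k]) (κ ∘ φ^[l]) X → κ ∘ φ^[k] = κ ∘ φ^[l]) :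
    ∃ m : ℕ, 0 < m ∧ κ ∘ φ^[m] = κ := by
  have := hX.to_subtype
  have := hκ.to_subtype
  let F : ℕ → (X → Set.range κ) := fun k x => ⟨κ (φ^[k] x), Set.mem_range_self _⟩
  have key : ∀ k l : ℕ, k < l → F k = F l → ∃ m : ℕ, 0 < m ∧ κ ∘ φ^[m] = κ := by
    intro k l hkl h
    have h1 : κ ∘ φ^[k] = κ ∘ φ^[l] := by
      apply hdet
      intro x hx
      exact congrArg Subtype.val (congrFun h ⟨x, hx⟩)
    refine ⟨l - k, by omega, ?_⟩
    funext y
    obtain ⟨z, rfl⟩ := (hφ.iterate k) y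
    have := congrFun h1 z
    simp only [Function.comp_apply] at this ⊢
    rw [← Function.iterate_add_apply, Nat.sub_add_cancel hkl.le, this]
  obtain ⟨k, l, hkl, h⟩ := Finite.exists_ne_map_eq_of_infinite F
  rcases lt_or_gt_of_ne hkl with h1 | h1
  · exact key k l h1 h
  · exact key l k h1 h.symm

/-- iterate of an endomorphism -/
def iterHom (φ : S →ₙ* S) (k : ℕ) : S →ₙ* S where
  toFun := φ^[k]
  map_mul' := by
    induction k with
    | zero => intro a b; rfl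
    | succ n ih =>
      intro a b
      rw [Function.iterate_succ_apply', Function.iterate_succ_apply',
        Function.iterate_succ_apply', ih, map_mul]

@[simp] lemma iterHom_apply (φ : S →ₙ* S) (k : ℕ) (x : S) : iterHom φ k x = φ^[k] x := rfl

/-- the set of classes outside `T` -/
def Cls : Set (Set S) := {C : Set S | ∃ x : S, x ∉ T ∧ C = HC T x}

/-- left residual -/
def Res (s : WithOne S) : Set (WithOne S) := {y | y * s ∉ T1 T}

lemma finite_range_Res (hfin : (Cls T).Finite) : (Set.range (Res T)).Finite := by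
  have h1 : (((fun C : Set S => {y : WithOne S | ∃ x ∈ C, y * (x : WithOne S) ∉ T1 T}) '' Cls T) ∪
      ((fun D : Set (Set S) => (fun x : S => (x : WithOne S)) '' (⋃₀ D)) ''
        {D | D ⊆ Cls T})).Finite :=
    (hfin.image _).union (hfin.finite_subsets.image _)
  refine h1.subset ?_
  rintro _ ⟨s, rfl⟩
  by_cases hs : s ∈ T1 T
  · right
    refine ⟨{C | ∃ x : S, x ∉ T ∧ C = HC T x ∧ (x : WithOne S) * s ∉ T1 T}, ?_, ?_⟩
    · rintro C ⟨x, hx, rfl, -⟩
      exact ⟨x, hx, rfl⟩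
    · ext y
      simp only [Set.mem_image, Set.mem_sUnion, Set.mem_ofPred_eq, Res]
      constructor
      · rintro ⟨z, ⟨C, ⟨x, hx, rfl, hxs⟩, hz⟩, rfl⟩
        intro hzs
        apply hxs
        obtain ⟨a, ha, h2⟩ := ((LS_eq_iff T).1 hz.2).2
        rw [h2, mul_assoc]
        exact (T1 T).mul_mem ha hzs
      · intro hy
        have hy' : y ∉ T1 T := fun h => hy ((T1 T).mul_mem h hs)
        induction y using WithOne.recOneCoe with
        | one => exact absurd (T1 T).one_mem hy'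
        | coe z =>
          rw [coe_mem_T1] at hy'
          exact ⟨z, ⟨HC T z, ⟨z, hy', rfl, hy⟩, self_mem_HC T z⟩, rfl⟩
  · left
    induction s using WithOne.recOneCoe with
    | one => exact absurd (T1 T).one_mem hs
    | coe x =>
      rw [coe_mem_T1] at hs
      refine ⟨HC T x, ⟨x, hs, rfl⟩, ?_⟩
      ext y
      simp only [Set.mem_ofPred_eq, Res]
      constructor
      · rintro ⟨z, hz, hyz⟩ hyx
        apply hyz
        obtain ⟨a, ha, h2⟩ := ((RS_eq_iff T).1 hz.1).1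
        rw [h2, ← mul_assoc]
        exact (T1 T).mul_mem hyx ha
      · intro h
        exact ⟨x, self_mem_HC T x, h⟩

/-- the syntactic action -/
def act : S →ₙ* Function.End (Set.range (Res T)) where
  toFun a := fun A => ⟨{y | y * (a : WithOne S) ∈ A.1}, by
    obtain ⟨_, s, rfl⟩ := A
    exact ⟨a * s, by ext y; simp [Res, mul_assoc]⟩⟩
  map_mul' a b := by
    funext A
    apply Subtype.ext
    ext y
    change y * ((a * b : S) : WithOne S) ∈ A.1 ↔ y * (a : WithOne S) * (b : WithOne S) ∈ A.1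
    rw [WithOne.coe_mul, mul_assoc]

lemma not_mem_iff_act (x : S) :
    x ∉ T ↔ (1 : WithOne S) ∈ ((act T x) ⟨Res T 1, Set.mem_range_self _⟩).1 := by
  change x ∉ T ↔ (1 : WithOne S) * (x : WithOne S) * 1 ∉ T1 T
  rw [one_mul, mul_one, coe_mem_T1]

lemma exists_reps (hfin : (Cls T).Finite) :
    ∃ R : Set S, R.Finite ∧ ∀ x, x ∉ T → ∃ r ∈ R, x ∈ HC T r := by
  have h : ∀ C : Cls T, ∃ x : S, x ∉ T ∧ C.1 = HC T x := fun C => C.2
  choose rep hrep using h
  have := hfin.to_subtype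
  refine ⟨Set.range rep, Set.finite_range _, fun x hx => ?_⟩
  refine ⟨rep ⟨HC T x, x, hx, rfl⟩, Set.mem_range_self _, ?_⟩
  rw [← (hrep ⟨HC T x, x, hx, rfl⟩).2]
  exact self_mem_HC T x

lemma exists_gen (hfg : ∃ F : Finset S, Subsemigroup.closure (↑F : Set S) = T)
    (hfin : (Cls T).Finite) : ∃ X : Set S, X.Finite ∧ Subsemigroup.closure X = ⊤ := by
  obtain ⟨F, hF⟩ := hfg
  obtain ⟨R, hR, hrep⟩ := exists_reps T hfin
  refine ⟨(F : Set S) ∪ R, F.finite_toSet.union hR, ?_⟩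
  have hT : T ≤ Subsemigroup.closure ((F : Set S) ∪ R) := by
    rw [← hF]; exact Subsemigroup.closure_mono Set.subset_union_left
  rw [eq_top_iff]
  intro x _
  by_cases hx : x ∈ T
  · exact hT hx
  · obtain ⟨r, hr, hxr⟩ := hrep x hx
    have hr' : r ∈ Subsemigroup.closure ((F : Set S) ∪ R) :=
      Subsemigroup.subset_closure (Or.inr hr)
    have : x ∈ RS T r := by rw [hxr.1]; exact Set.mem_insert _ _
    rcases this with rfl | ⟨t, ht, rfl⟩
    · exact hr'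
    · exact Subsemigroup.mul_mem _ hr' (hT ht)

lemma exists_iter_preserves (hfg : ∃ F : Finset S, Subsemigroup.closure (↑F : Set S) = T)
    (hfin : (Cls T).Finite) (φ : S →ₙ* S) (hφ : Function.Surjective φ) :
    ∃ m : ℕ, 0 < m ∧ ∀ x, φ^[m] x ∈ T ↔ x ∈ T := by
  obtain ⟨X, hX, hXt⟩ := exists_gen T hfg hfin
  have := (finite_range_Res T hfin).to_subtype
  have : Finite (Function.End (Set.range (Res T))) := by
    unfold Function.End; infer_instance
  obtain ⟨m, hm, h⟩ := periodic φ hφ (act T) (Set.toFinite _) X hX (by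
    intro k l hkl
    have : (act T).comp (iterHom φ k) = (act T).comp (iterHom φ l) :=
      MulHom.eq_of_eqOn_dense hXt hkl
    exact congrArg (fun g : S →ₙ* Function.End (Set.range (Res T)) => (g : S → _)) this)
  refine ⟨m, hm, fun x => ?_⟩
  rw [← not_iff_not, not_mem_iff_act, not_mem_iff_act]
  have := congrFun h x
  simp only [Function.comp_apply] at this
  rw [this]

lemma map_T1 (ψ : S →ₙ* S) (hT : ∀ x, ψ x ∈ T ↔ x ∈ T) {a : WithOne S} (ha : a ∈ T1 T) :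
    WithOne.mapMulHom ψ a ∈ T1 T := by
  rcases ha with rfl | ⟨t, ht, rfl⟩
  · rw [map_one]; exact (T1 T).one_mem
  · rw [WithOne.mapMulHom_coe, coe_mem_T1, hT]; exact ht

lemma map_mem_HC (ψ : S →ₙ* S) (hT : ∀ x, ψ x ∈ T ↔ x ∈ T) {x y : S} (h : y ∈ HC T x) :
    ψ y ∈ HC T (ψ x) := by
  obtain ⟨⟨a, ha, h1⟩, ⟨b, hb, h2⟩⟩ := (RS_eq_iff T).1 h.1
  obtain ⟨⟨c, hc, h3⟩, ⟨d, hd, h4⟩⟩ := (LS_eq_iff T).1 h.2
  refine ⟨(RS_eq_iff T).2 ⟨⟨_, map_T1 T ψ hT ha, ?_⟩, ⟨_, map_T1 T ψ hT hb, ?_⟩⟩,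
    (LS_eq_iff T).2 ⟨⟨_, map_T1 T ψ hT hc, ?_⟩, ⟨_, map_T1 T ψ hT hd, ?_⟩⟩⟩
  · rw [← WithOne.mapMulHom_coe, h1, map_mul, WithOne.mapMulHom_coe]
  · rw [← WithOne.mapMulHom_coe, h2, map_mul, WithOne.mapMulHom_coe]
  · rw [← WithOne.mapMulHom_coe, h3, map_mul, WithOne.mapMulHom_coe]
  · rw [← WithOne.mapMulHom_coe, h4, map_mul, WithOne.mapMulHom_coe]

lemma iter_preserves (ψ : S →ₙ* S) (hT : ∀ x, ψ x ∈ T ↔ x ∈ T) (k : ℕ) :
    ∀ x, ψ^[k] x ∈ T ↔ x ∈ T := by
  induction k with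
  | zero => intro x; rfl
  | succ n ih => intro x; rw [Function.iterate_succ_apply', hT, ih]

lemma exists_iter_fix_classes (hfin : (Cls T).Finite) (ψ : S →ₙ* S)
    (hψ : Function.Surjective ψ) (hT : ∀ x, ψ x ∈ T ↔ x ∈ T) :
    ∃ m : ℕ, 0 < m ∧ ∀ x, x ∉ T → HC T (ψ^[m] x) = HC T x := by
  classical
  obtain ⟨R, hR, hrep⟩ := exists_reps T hfin
  let κ : S → Set S := fun x => if x ∈ T then ∅ else HC T x
  have hκ : (Set.range κ).Finite := by
    refine (hfin.insert ∅).subset ?_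
    rintro _ ⟨x, rfl⟩
    by_cases hx : x ∈ T
    · left; simp [κ, hx]
    · right; exact ⟨x, hx, by simp [κ, hx]⟩
  have hκ' : ∀ k x, x ∉ T → κ (ψ^[k] x) = HC T (ψ^[k] x) := by
    intro k x hx
    have : ψ^[k] x ∉ T := by rw [iter_preserves T ψ hT]; exact hx
    simp [κ, this]
  obtain ⟨m, hm, h⟩ := periodic ψ hψ κ hκ R hR (by
    intro k l hkl
    funext x
    simp only [Function.comp_apply]
    by_cases hx : x ∈ T
    · have h1 : ψ^[k] x ∈ T := by rw [iter_preserves T ψ hT]; exact hx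
      have h2 : ψ^[l] x ∈ T := by rw [iter_preserves T ψ hT]; exact hx
      simp [κ, h1, h2]
    · obtain ⟨r, hr, hxr⟩ := hrep x hx
      have hr' : r ∉ T := not_mem_of_mem_HC T hx (mem_HC_symm T hxr)
      have h3 := hkl hr
      simp only [Function.comp_apply] at h3
      rw [hκ' k r hr', hκ' l r hr'] at h3
      rw [hκ' k x hx, hκ' l x hx]
      have e1 := HC_eq_of_mem T (map_mem_HC T (iterHom ψ k) (iter_preserves T ψ hT k) hxr)
      have e2 := HC_eq_of_mem T (map_mem_HC T (iterHom ψ l) (iter_preserves T ψ hT l) hxr)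
      simp only [iterHom_apply] at e1 e2
      rw [e1, e2, h3])
  refine ⟨m, hm, fun x hx => ?_⟩
  have := congrFun h x
  simp only [Function.comp_apply] at this
  rw [hκ' m x hx] at this
  rw [this]
  simp [κ, hx]

/-- Green's lemma, first half -/
lemma green1 {x h0 h1 h : S} {a : WithOne S} (ha : a ∈ T1 T) (hh0 : h0 ∈ HC T x)
    (hh1 : h1 ∈ HC T x) (e : (h1 : WithOne S) = h0 * a) (hh : h ∈ HC T x) :
    ∃ h' ∈ HC T x, (h' : WithOne S) = h * a := by
  have h01 := mem_HC_trans T hh0 hh1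
  have h0h := mem_HC_trans T hh0 hh
  obtain ⟨-, ⟨a', ha', e'⟩⟩ := (RS_eq_iff T).1 h01.1
  obtain ⟨⟨c, hc, ec⟩, ⟨c', hc', ec'⟩⟩ := (LS_eq_iff T).1 h0h.2
  have hne : (h : WithOne S) * a ≠ 1 := by
    rcases ha with rfl | ⟨t, -, rfl⟩
    · simp
    · rw [← WithOne.coe_mul]; exact WithOne.coe_ne_one
  obtain ⟨h', hh'⟩ := WithOne.ne_one_iff_exists.1 hne
  refine ⟨h', ⟨?_, ?_⟩, hh'⟩
  · rw [hh.1]
    refine (RS_eq_iff T).2 ⟨⟨a, ha, hh'⟩, ⟨a', ha', ?_⟩⟩
    rw [hh', ec, mul_assoc c, ← e, mul_assoc c, ← e']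
  · rw [hh1.2]
    refine (LS_eq_iff T).2 ⟨⟨c, hc, ?_⟩, ⟨c', hc', ?_⟩⟩
    · rw [hh', ec, e, mul_assoc]
    · rw [hh', e, ← mul_assoc, ← ec']

lemma green2 {x h0 h1 h : S} {a : WithOne S} (hh0 : h0 ∈ HC T x)
    (hh1 : h1 ∈ HC T x) (e : (h1 : WithOne S) = h0 * a) (hh : h ∈ HC T x) :
    ∃ h' ∈ HC T x, (h : WithOne S) = h' * a := by
  have h01 := mem_HC_trans T hh0 hh1
  obtain ⟨-, ⟨a', ha', e'⟩⟩ := (RS_eq_iff T).1 h01.1
  obtain ⟨h', hh', e2⟩ := green1 T ha' hh1 hh0 e' hh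
  refine ⟨h', hh', ?_⟩
  have h1h := mem_HC_trans T hh1 hh
  obtain ⟨⟨c, hc, ec⟩, -⟩ := (LS_eq_iff T).1 h1h.2
  rw [e2, ec, mul_assoc c, ← e', mul_assoc, ← e]

/-- the stabiliser monoid -/
def Stab (H : Set S) : Submonoid (WithOne S) :=
  Submonoid.closure {u : WithOne S | u = 1 ∨
    ∃ t ∈ T, u = (t : WithOne S) ∧ (fun h => h * t) '' H = H}

lemma mem_Stab_of {x h0 h1 : S} {a : WithOne S} (ha : a ∈ T1 T) (hh0 : h0 ∈ HC T x)
    (hh1 : h1 ∈ HC T x) (e : (h1 : WithOne S) = h0 * a) : a ∈ Stab T (HC T x) := by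
  apply Submonoid.subset_closure
  rcases ha with rfl | ⟨t, ht, rfl⟩
  · exact Or.inl rfl
  · refine Or.inr ⟨t, ht, rfl, ?_⟩
    ext h
    constructor
    · rintro ⟨z, hz, rfl⟩
      obtain ⟨h', hh', e2⟩ := green1 T ((coe_mem_T1 T).2 ht) hh0 hh1 e hz
      rw [← WithOne.coe_mul, WithOne.coe_inj] at e2
      rw [e2] at hh'
      exact hh'
    · intro hh
      obtain ⟨h', hh', e2⟩ := green2 T hh0 hh1 e hh
      rw [← WithOne.coe_mul, WithOne.coe_inj] at e2
      exact ⟨h', hh', e2.symm⟩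

lemma Stab_prop {H : Set S} {a : WithOne S} (ha : a ∈ Stab T H) :
    a ∈ T1 T ∧ ∀ h ∈ H, ∃ h' ∈ H, (h' : WithOne S) = h * a := by
  induction ha using Submonoid.closure_induction with
  | mem u hu =>
    rcases hu with rfl | ⟨t, ht, rfl, hH⟩
    · exact ⟨(T1 T).one_mem, fun h hh => ⟨h, hh, by simp⟩⟩
    · refine ⟨(coe_mem_T1 T).2 ht, fun h hh => ⟨h * t, ?_, by simp⟩⟩
      rw [← hH]; exact ⟨h, hh, rfl⟩
  | one => exact ⟨(T1 T).one_mem, fun h hh => ⟨h, hh, by simp⟩⟩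
  | mul a b _ _ iha ihb =>
    refine ⟨(T1 T).mul_mem iha.1 ihb.1, fun h hh => ?_⟩
    obtain ⟨h1, hh1, e1⟩ := iha.2 h hh
    obtain ⟨h2, hh2, e2⟩ := ihb.2 h1 hh1
    exact ⟨h2, hh2, by rw [e2, e1, mul_assoc]⟩

/-- the relation defining the Schützenberger group -/
def rel (H : Set S) : Stab T H → Stab T H → Prop :=
  fun a b => ∀ h ∈ H, (h : WithOne S) * (a : WithOne S) = (h : WithOne S) * (b : WithOne S)

/-- it is a congruence -/
def con (H : Set S) : Con (Stab T H) where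
  r := rel T H
  iseqv := ⟨fun _ _ _ => rfl, fun h z hz => (h z hz).symm, fun h h' z hz => (h z hz).trans (h' z hz)⟩
  mul' := by
    intro a b c d hab hcd h hh
    obtain ⟨h', hh', e⟩ := (Stab_prop T b.2).2 h hh
    simp only [Submonoid.coe_mul]
    rw [← mul_assoc, ← mul_assoc, hab h hh, ← e]
    exact hcd h' hh'

lemma conGen_rel (H : Set S) : conGen (rel T H) = con T H := Con.conGen_of_con (con T H)

lemma conGen_rel_iff (H : Set S) (a b : Stab T H) : conGen (rel T H) a b ↔ rel T H a b := by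
  rw [conGen_rel]; rfl

lemma rel_of_one {x h0 : S} (hh0 : h0 ∈ HC T x) (a b : Stab T (HC T x))
    (e : (h0 : WithOne S) * a = h0 * b) : rel T (HC T x) a b := by
  intro h hh
  obtain ⟨⟨c, hc, ec⟩, -⟩ := (LS_eq_iff T).1 (mem_HC_trans T hh0 hh).2
  rw [ec, mul_assoc, e, mul_assoc]

lemma injOn_class (χ : S →ₙ* S) (hχ : Function.Surjective χ) (hT : ∀ x, χ x ∈ T ↔ x ∈ T)
    (hfix : ∀ x, x ∉ T → HC T (χ x) = HC T x) {x : S} (hx : x ∉ T)
    (hhopf : ∀ f : (conGen (rel T (HC T x))).Quotient →* (conGen (rel T (HC T x))).Quotient,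
      Function.Surjective f → Function.Injective f) :
    Set.InjOn χ (HC T x) := by
  have hmaps : ∀ h ∈ HC T x, χ h ∈ HC T x := by
    intro h hh
    rw [← hfix x hx]; exact map_mem_HC T χ hT hh
  have hsurj : ∀ h ∈ HC T x, ∃ z ∈ HC T x, χ z = h := by
    intro h hh
    obtain ⟨z, rfl⟩ := hχ h
    refine ⟨z, ?_, rfl⟩
    have hz : z ∉ T := by
      rw [← hT]; exact not_mem_of_mem_HC T hx hh
    rw [← HC_eq_of_mem T hh, hfix z hz]
    exact self_mem_HC T z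
  have hstab : ∀ a ∈ Stab T (HC T x), WithOne.mapMulHom χ a ∈ Stab T (HC T x) := by
    intro a ha
    obtain ⟨ha1, ha2⟩ := Stab_prop T ha
    obtain ⟨h', hh', e⟩ := ha2 x (self_mem_HC T x)
    refine mem_Stab_of T (map_T1 T χ hT ha1) (hmaps x (self_mem_HC T x)) (hmaps h' hh') ?_
    rw [← WithOne.mapMulHom_coe, e, map_mul, WithOne.mapMulHom_coe]
  let g : Stab T (HC T x) →* Stab T (HC T x) :=
    ((WithOne.mapMulHom χ).comp (Stab T (HC T x)).subtype).codRestrict _ (fun a => hstab a a.2)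
  have hg : ∀ a, (g a : WithOne S) = WithOne.mapMulHom χ a := fun a => rfl
  have hle : conGen (rel T (HC T x)) ≤ Con.ker ((conGen (rel T (HC T x))).mk'.comp g) := by
    intro a b hab
    rw [conGen_rel_iff] at hab
    rw [Con.ker_rel]
    simp only [MonoidHom.comp_apply, Con.coe_mk']
    rw [Con.eq, conGen_rel_iff]
    apply rel_of_one T (hmaps x (self_mem_HC T x))
    rw [hg, hg, ← WithOne.mapMulHom_coe, ← map_mul, ← map_mul, hab x (self_mem_HC T x)]
  let f := Con.lift _ _ hle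
  have hf : ∀ a : Stab T (HC T x),
      f (a : (conGen (rel T (HC T x))).Quotient) = (g a : (conGen (rel T (HC T x))).Quotient) :=
    fun a => rfl
  have hfs : Function.Surjective f := by
    intro q
    obtain ⟨b, rfl⟩ := Con.mk'_surjective q
    obtain ⟨h1, hh1, e1⟩ := (Stab_prop T b.2).2 (χ x) (hmaps x (self_mem_HC T x))
    obtain ⟨z, hz, rfl⟩ := hsurj h1 hh1
    obtain ⟨⟨a, ha, ea⟩, -⟩ := (RS_eq_iff T).1 hz.1
    refine ⟨((⟨a, mem_Stab_of T ha (self_mem_HC T x) hz ea⟩ : Stab T (HC T x)) :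
      (conGen (rel T (HC T x))).Quotient), ?_⟩
    rw [hf]
    simp only [Con.coe_mk']
    rw [Con.eq, conGen_rel_iff]
    apply rel_of_one T (hmaps x (self_mem_HC T x))
    rw [hg, ← e1, ← WithOne.mapMulHom_coe, ← map_mul, ← ea, WithOne.mapMulHom_coe]
  have hfi := hhopf f hfs
  intro h1 hh1 h2 hh2 e
  obtain ⟨⟨a, ha, ea⟩, -⟩ := (RS_eq_iff T).1 (mem_HC_trans T hh1 hh2).1
  let a' : Stab T (HC T x) := ⟨a, mem_Stab_of T ha hh1 hh2 ea⟩
  have h3 : f (a' : (conGen (rel T (HC T x))).Quotient) =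
      f ((1 : Stab T (HC T x)) : (conGen (rel T (HC T x))).Quotient) := by
    rw [hf, hf, Con.eq, conGen_rel_iff]
    apply rel_of_one T (hmaps h1 hh1)
    rw [hg, hg, ← WithOne.mapMulHom_coe, ← map_mul, ← map_mul]
    change WithOne.mapMulHom χ (h1 * a) = WithOne.mapMulHom χ (h1 * 1)
    rw [← ea, mul_one, WithOne.mapMulHom_coe, WithOne.mapMulHom_coe, e]
  have h4 := hfi h3
  rw [Con.eq, conGen_rel_iff] at h4
  have h5 := h4 h1 hh1
  change (h1 : WithOne S) * a = h1 * 1 at h5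
  rw [← ea, mul_one, WithOne.coe_inj] at h5
  exact h5.symm

theorem main (hfg : ∃ F : Finset S, Subsemigroup.closure (↑F : Set S) = T)
    (hfin : (Cls T).Finite)
    (hhT : ∀ f : T →ₙ* T, Function.Surjective f → Function.Injective f)
    (hhG : ∀ H : Set S, (∃ x : S, x ∉ T ∧ H = HC T x) →
      ∀ f : (conGen (rel T H)).Quotient →* (conGen (rel T H)).Quotient,
        Function.Surjective f → Function.Injective f)
    (φ : S →ₙ* S) (hφ : Function.Surjective φ) : Function.Injective φ := by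
  obtain ⟨m, hm, hmT⟩ := exists_iter_preserves T hfg hfin φ hφ
  let ψ := iterHom φ m
  have hψ : Function.Surjective ψ := hφ.iterate m
  have hψT : ∀ x, ψ x ∈ T ↔ x ∈ T := hmT
  obtain ⟨k, hk, hkH⟩ := exists_iter_fix_classes T hfin ψ hψ hψT
  let χ := iterHom ψ k
  have hχ : Function.Surjective χ := hψ.iterate k
  have hχT : ∀ x, χ x ∈ T ↔ x ∈ T := iter_preserves T ψ hψT k
  have hχH : ∀ x, x ∉ T → HC T (χ x) = HC T x := hkH
  have hχinj : Function.Injective χ := by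
    intro x y e
    by_cases hx : x ∈ T
    · have hy : y ∈ T := by rw [← hχT, ← e, hχT]; exact hx
      let g : T →ₙ* T := ⟨fun t => ⟨χ t, (hχT t).2 t.2⟩, fun a b => Subtype.ext (by simp)⟩
      have hg : Function.Surjective g := by
        rintro ⟨t, ht⟩
        obtain ⟨z, rfl⟩ := hχ t
        exact ⟨⟨z, (hχT z).1 ht⟩, rfl⟩
      have := hhT g hg (a₁ := ⟨x, hx⟩) (a₂ := ⟨y, hy⟩) (Subtype.ext e)
      exact congrArg Subtype.val this
    · have hy : y ∉ T := by rw [← hχT, ← e, hχT]; exact hx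
      have hyx : y ∈ HC T x := by
        rw [← hχH x hx, e, hχH y hy]; exact self_mem_HC T y
      exact injOn_class T χ hχ hχT hχH hx (hhG _ ⟨x, hx, rfl⟩) (self_mem_HC T x) hyx e
  have hψinj : Function.Injective ψ := by
    obtain ⟨k', rfl⟩ := Nat.exists_eq_succ_of_ne_zero hk.ne'
    intro x y e
    apply hχinj
    change ψ^[k'.succ] x = ψ^[k'.succ] y
    rw [Function.iterate_succ_apply, Function.iterate_succ_apply, e]
  obtain ⟨m', rfl⟩ := Nat.exists_eq_succ_of_ne_zero hm.ne'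
  intro x y e
  apply hψinj
  change φ^[m'.succ] x = φ^[m'.succ] y
  rw [Function.iterate_succ_apply, Function.iterate_succ_apply, e]

end Pool.Agent.P.MP_271f28_al
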